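import Pool.Agent.Helper53.Spheres.Trace

/-!
# The algebraic core
-/

set_option autoImplicit false

namespace Pool.Agent.Helper53.Spheres

open Matrix

/-- If the columns `v k` of `V` and the rows `n k` of `W` are dual bases, `M` vanishes on the `v k`
and `N` vanishes on the `n k`, then `(tr N M) ^ 2 = 2 tr (N M) ^ 2`. -/
theorem trace_dual (V W N M : Matrix (Fin 3) (Fin 3) ℝ) (hWV : W * V = 1)
    (hN : Nᵀ = N) (hM : Mᵀ = M) (hN0 : ∀ k, (W * N * Wᵀ) k k = 0)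
    (hM0 : ∀ k, (Vᵀ * M * V) k k = 0) :
    (trace (N * M)) ^ 2 = 2 * trace (N * M * (N * M)) := by
  have hVW : V * W = 1 := mul_eq_one_comm.1 hWV
  have hT : Wᵀ * Vᵀ = 1 := by rw [← transpose_mul, hVW, transpose_one]
  have e1 : (W * N * Wᵀ) * (Vᵀ * M * V) = W * (N * M) * V := by
    calc (W * N * Wᵀ) * (Vᵀ * M * V) = W * N * (Wᵀ * Vᵀ) * M * V := by
          simp only [Matrix.mul_assoc]
      _ = W * (N * M) * V := by rw [hT, Matrix.mul_one]; simp only [Matrix.mul_assoc]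
  have e2 : (W * (N * M) * V) * (W * (N * M) * V) = W * (N * M * (N * M)) * V := by
    calc (W * (N * M) * V) * (W * (N * M) * V) = W * (N * M) * (V * W) * (N * M) * V := by
          simp only [Matrix.mul_assoc]
      _ = W * (N * M * (N * M)) * V := by rw [hVW, Matrix.mul_one]; simp only [Matrix.mul_assoc]
  have t : ∀ X : Matrix (Fin 3) (Fin 3) ℝ, trace (W * X * V) = trace X := by
    intro X
    rw [Matrix.trace_mul_comm, ← Matrix.mul_assoc, hVW, Matrix.one_mul]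
  have h := trace_zeroDiag (W * N * Wᵀ) (Vᵀ * M * V) ?_ ?_ hN0 hM0
  · rw [e1, e2, t, t] at h
    exact h
  · intro i j
    have : (W * N * Wᵀ)ᵀ = W * N * Wᵀ := by
      rw [transpose_mul, transpose_mul, transpose_transpose, hN, Matrix.mul_assoc]
    conv_lhs => rw [← this]
    rfl
  · intro i j
    have : (Vᵀ * M * V)ᵀ = Vᵀ * M * V := by
      rw [transpose_mul, transpose_mul, transpose_transpose, hM, Matrix.mul_assoc]
    conv_lhs => rw [← this]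
    rfl

/-- the inequality behind `gram_ineq`, for the entries of a Gram matrix -/
theorem gram_ineq_aux (h a b c : ℝ) (hh : 1 < h) (hc : -1 ≤ c)
    (hD : 0 ≤ h * (1 - c ^ 2) - a ^ 2 - b ^ 2 + 2 * a * b * c) (ha : a ^ 2 ≤ h) :
    0 < (2 * h ^ 2 + 2 * h - 3) + (3 - 2 * h) * (a + b) + (4 * h - 3) * (a * b)
      - 2 * h * (h - 1) * c := by
  rcases eq_or_lt_of_le hc with hc | hc
  · subst hc
    have h1 : (a + b) ^ 2 ≤ 0 := by nlinarith
    have h2 : a + b = 0 := by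
      have := sq_nonneg (a + b)
      exact pow_eq_zero_iff (two_ne_zero) |>.1 (le_antisymm h1 this)
    have h3 : b = -a := by linarith
    subst h3
    nlinarith
  · have hG : 0 < (1 + c) / 2 := by linarith
    have key : h * ((1 + c) / 2) * ((2 * h ^ 2 + 2 * h - 3) + (3 - 2 * h) * (a + b)
        + (4 * h - 3) * (a * b) - 2 * h * (h - 1) * c)
        = h * (4 * h - 3) / 4 * (h * (1 - c ^ 2) - a ^ 2 - b ^ 2 + 2 * a * b * c)
          + 3 * h * (h - 1) * ((1 + c) / 2)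
          + (h * ((1 + c) / 2) + (3 - 2 * h) * ((a + b) / 2)) ^ 2
          + 9 * (h - 1) * ((a + b) / 2) ^ 2 := by ring
    have h1 : 0 ≤ h * (4 * h - 3) / 4 * (h * (1 - c ^ 2) - a ^ 2 - b ^ 2 + 2 * a * b * c) := by
      apply mul_nonneg _ hD
      have : 0 ≤ h * (4 * h - 3) := mul_nonneg (by linarith) (by linarith)
      linarith
    have h2 : 0 < 3 * h * (h - 1) * ((1 + c) / 2) := by
      apply mul_pos _ hG
      have : 0 < h * (h - 1) := mul_pos (by linarith) (by linarith)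
      linarith
    have h3 : 0 ≤ (h * ((1 + c) / 2) + (3 - 2 * h) * ((a + b) / 2)) ^ 2 := sq_nonneg _
    have h4 : 0 ≤ 9 * (h - 1) * ((a + b) / 2) ^ 2 :=
      mul_nonneg (by linarith) (sq_nonneg _)
    have h5 : 0 < h * ((1 + c) / 2) * ((2 * h ^ 2 + 2 * h - 3) + (3 - 2 * h) * (a + b)
        + (4 * h - 3) * (a * b) - 2 * h * (h - 1) * c) := by
      rw [key]; linarith
    exact (pos_iff_pos_of_mul_pos h5).1 (mul_pos (by linarith) hG)

/-- the Gram determinant inequality -/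
theorem gram_ineq (v p y : Fin 3 → ℝ) (hv : v ⬝ᵥ v = 1) (hp : p ⬝ᵥ p = 1) (hh : 1 < y ⬝ᵥ y) :
    0 < (2 * (y ⬝ᵥ y) ^ 2 + 2 * (y ⬝ᵥ y) - 3) + (3 - 2 * (y ⬝ᵥ y)) * (y ⬝ᵥ v + y ⬝ᵥ p)
      + (4 * (y ⬝ᵥ y) - 3) * ((y ⬝ᵥ v) * (y ⬝ᵥ p))
      - 2 * (y ⬝ᵥ y) * ((y ⬝ᵥ y) - 1) * (v ⬝ᵥ p) := by
  apply gram_ineq_aux _ _ _ _ hh
  · have h1 : 0 ≤ (v 0 + p 0) ^ 2 + (v 1 + p 1) ^ 2 + (v 2 + p 2) ^ 2 := by positivity
    simp only [dotProduct, Fin.sum_univ_three] at *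
    nlinarith
  · have h1 : 0 ≤ (y 0 * (v 1 * p 2 - v 2 * p 1) - y 1 * (v 0 * p 2 - v 2 * p 0)
        + y 2 * (v 0 * p 1 - v 1 * p 0)) ^ 2 := sq_nonneg _
    have h2 : (y 0 * (v 1 * p 2 - v 2 * p 1) - y 1 * (v 0 * p 2 - v 2 * p 0)
        + y 2 * (v 0 * p 1 - v 1 * p 0)) ^ 2 = (y ⬝ᵥ y) * ((v ⬝ᵥ v) * (p ⬝ᵥ p) - (v ⬝ᵥ p) ^ 2)
          - (y ⬝ᵥ v) ^ 2 * (p ⬝ᵥ p) - (y ⬝ᵥ p) ^ 2 * (v ⬝ᵥ v)
          + 2 * (y ⬝ᵥ v) * (y ⬝ᵥ p) * (v ⬝ᵥ p) := by
      simp only [dotProduct, Fin.sum_univ_three]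
      ring
    rw [h2, hv, hp] at h1
    linarith
  · have h1 : (y 0 ^ 2 + y 1 ^ 2 + y 2 ^ 2) * (v 0 ^ 2 + v 1 ^ 2 + v 2 ^ 2)
        - (y 0 * v 0 + y 1 * v 1 + y 2 * v 2) ^ 2
        = (y 0 * v 1 - y 1 * v 0) ^ 2 + (y 0 * v 2 - y 2 * v 0) ^ 2
          + (y 1 * v 2 - y 2 * v 1) ^ 2 := by ring
    have h2 : (y ⬝ᵥ y) * (v ⬝ᵥ v) - (y ⬝ᵥ v) ^ 2
        = (y 0 * v 1 - y 1 * v 0) ^ 2 + (y 0 * v 2 - y 2 * v 0) ^ 2
          + (y 1 * v 2 - y 2 * v 1) ^ 2 := by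
      rw [← h1]
      simp only [dotProduct, Fin.sum_univ_three]
      ring
    rw [hv] at h2
    have : 0 ≤ (y 0 * v 1 - y 1 * v 0) ^ 2 + (y 0 * v 2 - y 2 * v 0) ^ 2
          + (y 1 * v 2 - y 2 * v 1) ^ 2 := by positivity
    linarith

/-- The system which a counterexample gives has no solution. -/
theorem core (V w : Fin 3 → Fin 3 → ℝ) (y v p : Fin 3 → ℝ) (t : Fin 3 → ℝ) (s e : ℝ)
    (ht : ∀ k, t k ≠ 0) (hs : s ≠ 0) (he : e ≠ 0)
    (hV : ∀ k, V k ⬝ᵥ V k = 1) (hyV : ∀ k, y ⬝ᵥ V k = 1)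
    (hwV : ∀ k j, w k ⬝ᵥ V j = if k = j then t k else 0)
    (hwv : ∀ k, w k ⬝ᵥ v = -s) (hwp : ∀ k, w k ⬝ᵥ p = e / 4 * (w k ⬝ᵥ w k))
    (hv : v ⬝ᵥ v = 1) (hp : p ⬝ᵥ p = 1) (hyv : y ⬝ᵥ v = 1 + s)
    (hyp : y ⬝ᵥ p = 1 - e / 4 * (y ⬝ᵥ y)) (hh : 1 < y ⬝ᵥ y) : False := by
  set ε : ℝ := e * s / 4 with hε
  have hε0 : ε ≠ 0 := by
    rw [hε]
    exact div_ne_zero (mul_ne_zero he hs) (by norm_num)
  have h1 := trace_dual (Matrix.of fun i k => V k i) (Matrix.of fun k i => w k i / t k)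
    (N v p ε) (M y) ?_ ?_ ?_ ?_ ?_
  · rw [trace_NM, trace_NM_sq, hv, hp] at h1
    have h2 := gram_ineq v p y hv hp hh
    have h3 : ε * (y ⬝ᵥ y) = -(1 - y ⬝ᵥ v) * (1 - y ⬝ᵥ p) := by
      rw [hyp, hyv, hε]; ring
    generalize y ⬝ᵥ y = h at *
    generalize y ⬝ᵥ v = a at *
    generalize y ⬝ᵥ p = b at *
    generalize v ⬝ᵥ p = c at *
    have h4 : (1 - h) * ε * (ε * (3 + h) + 2 * (c + a * b)) = (1 - a ^ 2) * (1 - b ^ 2) := by
      linear_combination h1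
    have h5 : ε * ((1 - h) * (ε * (3 + h) + 2 * (c + a * b)) + h * (1 + a) * (1 + b)) = 0 := by
      linear_combination h4 + (1 + a) * (1 + b) * h3
    have h6 : (1 - h) * (ε * (3 + h) + 2 * (c + a * b)) + h * (1 + a) * (1 + b) = 0 :=
      (mul_eq_zero.1 h5).resolve_left hε0
    have h7 : (2 * h ^ 2 + 2 * h - 3) + (3 - 2 * h) * (a + b)
      + (4 * h - 3) * (a * b) - 2 * h * (h - 1) * c = 0 := by
      linear_combination h * h6 - (1 - h) * (3 + h) * h3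
    linarith
  · ext i j
    simp only [mul_apply, one_apply, Matrix.of_apply]
    have := hwV i j
    simp only [dotProduct] at this
    have e1 : ∑ k, w i k / t i * V j k = (∑ k, w i k * V j k) / t i := by
      rw [Finset.sum_div]
      refine Finset.sum_congr rfl fun k _ => ?_
      ring
    rw [e1, this]
    split_ifs
    · exact div_self (ht i)
    · simp
  · ext i j
    simp only [transpose_apply, N, eq_comm (a := j) (b := i)]
    ring
  · ext i j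
    simp only [transpose_apply, M, eq_comm (a := j) (b := i)]
    ring
  · intro k
    have e1 := hwv k
    have e2 := hwp k
    have e3 : ((Matrix.of fun k i => w k i / t k) * N v p ε *
        (Matrix.of fun k i => w k i / t k)ᵀ) k k
        = (ε * (w k ⬝ᵥ w k) + (w k ⬝ᵥ v) * (w k ⬝ᵥ p)) / t k ^ 2 := by
      have htk := ht k
      simp only [mul_apply, transpose_apply, Fin.sum_univ_three, N, dotProduct, Matrix.of_apply]
      simp
      field_simp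
      ring
    rw [e3, e2, e1, hε]
    ring
  · intro k
    have e1 := hyV k
    have e2 := hV k
    have e3 : ((Matrix.of fun i k => V k i)ᵀ * M y * (Matrix.of fun i k => V k i)) k k
        = V k ⬝ᵥ V k - (y ⬝ᵥ V k) ^ 2 := by
      simp only [mul_apply, transpose_apply, Fin.sum_univ_three, M, dotProduct, Matrix.of_apply]
      simp
      ring
    rw [e3, e2, e1]
    ring

end Pool.Agent.Helper53.Spheres
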