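import Pool.Agent.Helper53.Spheres.Core

/-!
# Five points, every four of them on a unit sphere
-/

set_option autoImplicit false

namespace Pool.Agent.Helper53.Spheres

open Matrix

theorem sq_sub (a b : Fin 3 → ℝ) :
    (a - b) ⬝ᵥ (a - b) = a ⬝ᵥ a - 2 * (a ⬝ᵥ b) + b ⬝ᵥ b := by
  rw [sub_dotProduct, dotProduct_sub, dotProduct_sub, dotProduct_comm b a]
  ring

/-- There are no distinct points `x i` and points `o i`, `i < 5`, in three-space with
`|x i - o j| = 1` exactly when `i ≠ j`. -/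
theorem five (x o : Fin 5 → Fin 3 → ℝ) (hx : ∀ i j, i ≠ j → x i ≠ x j)
    (h : ∀ i j, i ≠ j → (x i - o j) ⬝ᵥ (x i - o j) = 1)
    (he : ∀ i, (x i - o i) ⬝ᵥ (x i - o i) ≠ 1) : False := by
  obtain ⟨X, hX⟩ : ∃ X : Fin 5 → Fin 3 → ℝ, X = fun i => x i - x 0 := ⟨_, rfl⟩
  obtain ⟨v, hv⟩ : ∃ v : Fin 5 → Fin 3 → ℝ, v = fun i => o i - x 0 := ⟨_, rfl⟩
  have hq : ∀ i, i ≠ 0 → X i ⬝ᵥ X i ≠ 0 := by
    intro i hi h0
    have h1 : X i = 0 := dotProduct_self_eq_zero.1 h0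
    rw [hX] at h1
    exact hx i 0 hi (sub_eq_zero.1 h1)
  have hvv : ∀ j, j ≠ 0 → v j ⬝ᵥ v j = 1 := by
    intro j hj
    have h1 := h 0 j (Ne.symm hj)
    have h2 : x 0 - o j = -v j := by simp [hv]
    rw [h2, neg_dotProduct_neg] at h1
    exact h1
  have hXv : ∀ i j, i ≠ j → j ≠ 0 → X i ⬝ᵥ X i = 2 * (X i ⬝ᵥ v j) := by
    intro i j hij hj
    have h1 := h i j hij
    have h2 : x i - o j = X i - v j := by simp [hv, hX]
    rw [h2, sq_sub, hvv j hj] at h1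
    linarith
  have hXi : ∀ i, i ≠ 0 → X i ⬝ᵥ X i ≠ 2 * (X i ⬝ᵥ v i) := by
    intro i hi h0
    apply he i
    have h2 : x i - o i = X i - v i := by simp [hv, hX]
    rw [h2, sq_sub, hvv i hi]
    linarith
  set e : ℝ := v 0 ⬝ᵥ v 0 - 1 with hedef
  have he0 : e ≠ 0 := by
    intro h0
    apply he 0
    have h2 : x 0 - o 0 = -v 0 := by simp [hv]
    rw [h2, neg_dotProduct_neg]
    linarith
  have hXO : ∀ i, i ≠ 0 → 2 * (X i ⬝ᵥ v 0) = X i ⬝ᵥ X i + e := by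
    intro i hi
    have h1 := h i 0 hi
    have h2 : x i - o 0 = X i - v 0 := by simp [hv, hX]
    rw [h2, sq_sub] at h1
    linarith
  obtain ⟨Y, hY⟩ : ∃ Y : Fin 5 → Fin 3 → ℝ, Y = fun i => (2 / (X i ⬝ᵥ X i)) • X i := ⟨_, rfl⟩
  have hYv : ∀ i j, i ≠ 0 → j ≠ 0 → i ≠ j → Y i ⬝ᵥ v j = 1 := by
    intro i j hi hj hij
    have h1 := hXv i j hij hj
    have h2 := hq i hi
    simp only [hY, smul_dotProduct, smul_eq_mul]
    rw [div_mul_eq_mul_div, div_eq_one_iff_eq h2, h1]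
  have hYi : ∀ i, i ≠ 0 → Y i ⬝ᵥ v i ≠ 1 := by
    intro i hi h0
    apply hXi i hi
    simp only [hY, smul_dotProduct, smul_eq_mul] at h0
    rw [div_mul_eq_mul_div, div_eq_one_iff_eq (hq i hi)] at h0
    exact h0.symm
  have hYY : ∀ i, i ≠ 0 → Y i ⬝ᵥ Y i = 4 / (X i ⬝ᵥ X i) := by
    intro i hi
    have h2 := hq i hi
    simp only [hY, smul_dotProduct, dotProduct_smul, smul_eq_mul]
    field_simp
    norm_num
  have hYO : ∀ i, i ≠ 0 → Y i ⬝ᵥ v 0 = 1 + e / 4 * (Y i ⬝ᵥ Y i) := by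
    intro i hi
    have h1 := hXO i hi
    have h2 := hq i hi
    rw [hYY i hi]
    simp only [hY, smul_dotProduct, smul_eq_mul]
    field_simp
    linarith
  have h4 : (4 : Fin 5) ≠ 0 := by decide
  set em : Fin 3 → Fin 5 := ![1, 2, 3] with hem
  have em0 : ∀ k, em k ≠ 0 := by decide
  have em4 : ∀ k, em k ≠ 4 := by decide
  have emi : ∀ j k, j ≠ k → em j ≠ em k := by decide
  have hwV : ∀ k j, (Y (em k) - Y 4) ⬝ᵥ v (em j)
      = if k = j then (Y (em k) ⬝ᵥ v (em k) - 1) else 0 := by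
    intro k j
    rw [sub_dotProduct, hYv 4 (em j) h4 (em0 j) (em4 j).symm]
    split_ifs with hkj
    · rw [hkj]
    · rw [hYv (em k) (em j) (em0 k) (em0 j) (emi k j hkj)]; ring
  refine core (fun k => v (em k)) (fun k => Y (em k) - Y 4) (Y 4) (v 4)
    (v 0 - (e / 2) • Y 4) (fun k => Y (em k) ⬝ᵥ v (em k) - 1) (Y 4 ⬝ᵥ v 4 - 1) e
    ?_ ?_ he0 ?_ ?_ hwV ?_ ?_ ?_ ?_ ?_ ?_ ?_
  · intro k
    exact sub_ne_zero.2 (hYi _ (em0 k))
  · exact sub_ne_zero.2 (hYi _ h4)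
  · intro k
    exact hvv _ (em0 k)
  · intro k
    exact hYv 4 _ h4 (em0 k) (em4 k).symm
  · intro k
    rw [sub_dotProduct, hYv (em k) 4 (em0 k) h4 (em4 k)]
    ring
  · intro k
    have e1 := hYO (em k) (em0 k)
    have e2 := hYO 4 h4
    simp only [sub_dotProduct, dotProduct_sub, dotProduct_smul, smul_eq_mul, e1, e2,
      dotProduct_comm (Y 4) (Y (em k))]
    ring
  · exact hvv 4 h4
  · have e2 := hYO 4 h4
    simp only [sub_dotProduct, dotProduct_sub, dotProduct_smul, smul_dotProduct, smul_eq_mul, e2,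
      dotProduct_comm (v 0) (Y 4)]
    have e3 : v 0 ⬝ᵥ v 0 = 1 + e := by rw [hedef]; ring
    rw [e3]
    ring
  · ring
  · have e2 := hYO 4 h4
    simp only [dotProduct_sub, dotProduct_smul, smul_eq_mul, e2]
    ring
  · by_contra hcon
    push Not at hcon
    have key : ∀ k, Y 4 = v (em k) := by
      intro k
      have h1 : (Y 4 - v (em k)) ⬝ᵥ (Y 4 - v (em k)) = Y 4 ⬝ᵥ Y 4 - 1 := by
        rw [sq_sub, hvv _ (em0 k), hYv 4 _ h4 (em0 k) (em4 k).symm]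
        ring
      have h2 : 0 ≤ (Y 4 - v (em k)) ⬝ᵥ (Y 4 - v (em k)) := by
        simp only [dotProduct]
        exact Finset.sum_nonneg fun i _ => mul_self_nonneg _
      have h3 : (Y 4 - v (em k)) ⬝ᵥ (Y 4 - v (em k)) = 0 := by linarith
      exact sub_eq_zero.1 (dotProduct_self_eq_zero.1 h3)
    have h1 := hwV 0 0
    have h2 := hwV 0 1
    rw [← key 0] at h1
    rw [← key 1] at h2
    rw [h2] at h1
    simp only [if_true] at h1
    have h3 := hYi (em 0) (em0 0)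
    rw [← key 0] at h3 h1
    simp at h1
    exact h3 (by linarith)

/-- The differences of three distinct points of a unit sphere are not parallel. -/
theorem noncol (A u w : Fin 3 → ℝ) (h0 : A ⬝ᵥ A = 1) (hu : (A + u) ⬝ᵥ (A + u) = 1)
    (hw : (A + w) ⬝ᵥ (A + w) = 1) (hu0 : u ≠ 0) (hw0 : w ≠ 0) (huw : u ≠ w)
    (c0 : u 1 * w 2 - u 2 * w 1 = 0) (c1 : u 2 * w 0 - u 0 * w 2 = 0)
    (c2 : u 0 * w 1 - u 1 * w 0 = 0) : False := by
  have e1 : u ⬝ᵥ u = -2 * (A ⬝ᵥ u) := by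
    rw [add_dotProduct, dotProduct_add, dotProduct_add, dotProduct_comm u A, h0] at hu
    linarith
  have e2 : w ⬝ᵥ w = -2 * (A ⬝ᵥ w) := by
    rw [add_dotProduct, dotProduct_add, dotProduct_add, dotProduct_comm w A, h0] at hw
    linarith
  have e3 : (u ⬝ᵥ u) * (A ⬝ᵥ w) = (u ⬝ᵥ w) * (A ⬝ᵥ u) := by
    simp only [dotProduct, Fin.sum_univ_three]
    linear_combination (-A 1 * u 2 + A 2 * u 1) * c0 + (A 0 * u 2 - A 2 * u 0) * c1
      + (-A 0 * u 1 + A 1 * u 0) * c2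
  have e4 : (w ⬝ᵥ w) * (A ⬝ᵥ u) = (u ⬝ᵥ w) * (A ⬝ᵥ w) := by
    simp only [dotProduct, Fin.sum_univ_three]
    linear_combination (A 1 * w 2 - A 2 * w 1) * c0 + (-A 0 * w 2 + A 2 * w 0) * c1
      + (A 0 * w 1 - A 1 * w 0) * c2
  have hup : u ⬝ᵥ u ≠ 0 := fun h => hu0 (dotProduct_self_eq_zero.1 h)
  have hwp : w ⬝ᵥ w ≠ 0 := fun h => hw0 (dotProduct_self_eq_zero.1 h)
  have e5 : (u ⬝ᵥ u) * (w ⬝ᵥ w) = (u ⬝ᵥ w) * (u ⬝ᵥ u) := by
    rw [e2, e1] at *
    linarith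
  have e6 : (u ⬝ᵥ u) * (w ⬝ᵥ w) = (u ⬝ᵥ w) * (w ⬝ᵥ w) := by
    rw [e2, e1] at *
    linarith
  have e7 : w ⬝ᵥ w = u ⬝ᵥ w := by
    apply mul_left_cancel₀ hup
    rw [e5]; ring
  have e8 : u ⬝ᵥ u = u ⬝ᵥ w := by
    apply mul_right_cancel₀ hwp
    rw [e6]
  have e9 : (u - w) ⬝ᵥ (u - w) = 0 := by
    rw [sq_sub, e7, e8]; ring
  exact huw (sub_eq_zero.1 (dotProduct_self_eq_zero.1 e9))

/-- Three distinct points and three distinct points of three-space cannot have all nine mutual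
distances equal to one. -/
theorem k33 (a0 a1 a2 p0 p1 p2 : Fin 3 → ℝ) (ha1 : a1 ≠ a0) (ha2 : a2 ≠ a0) (ha : a1 ≠ a2)
    (hp1 : p1 ≠ p0) (hp2 : p2 ≠ p0) (hp : p1 ≠ p2)
    (h00 : (a0 - p0) ⬝ᵥ (a0 - p0) = 1) (h01 : (a0 - p1) ⬝ᵥ (a0 - p1) = 1)
    (h02 : (a0 - p2) ⬝ᵥ (a0 - p2) = 1) (h10 : (a1 - p0) ⬝ᵥ (a1 - p0) = 1)
    (h11 : (a1 - p1) ⬝ᵥ (a1 - p1) = 1) (h12 : (a1 - p2) ⬝ᵥ (a1 - p2) = 1)
    (h20 : (a2 - p0) ⬝ᵥ (a2 - p0) = 1) (h21 : (a2 - p1) ⬝ᵥ (a2 - p1) = 1)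
    (h22 : (a2 - p2) ⬝ᵥ (a2 - p2) = 1) : False := by
  have key1 := noncol (a0 - p0) (a1 - a0) (a2 - a0) h00
    (by rw [show a0 - p0 + (a1 - a0) = a1 - p0 by abel]; exact h10)
    (by rw [show a0 - p0 + (a2 - a0) = a2 - p0 by abel]; exact h20)
    (sub_ne_zero.2 ha1) (sub_ne_zero.2 ha2) (fun h => ha (sub_left_injective h))
  have key2 := noncol (p0 - a0) (p1 - p0) (p2 - p0)
    (by rw [← neg_sub a0 p0, neg_dotProduct_neg]; exact h00)
    (by rw [show p0 - a0 + (p1 - p0) = -(a0 - p1) by abel, neg_dotProduct_neg]; exact h01)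
    (by rw [show p0 - a0 + (p2 - p0) = -(a0 - p2) by abel, neg_dotProduct_neg]; exact h02)
    (sub_ne_zero.2 hp1) (sub_ne_zero.2 hp2) (fun h => hp (sub_left_injective h))
  have o11 : (a1 - a0) ⬝ᵥ (p1 - p0) = 0 := by
    simp only [dotProduct, Fin.sum_univ_three, Pi.sub_apply] at *
    linarith
  have o12 : (a1 - a0) ⬝ᵥ (p2 - p0) = 0 := by
    simp only [dotProduct, Fin.sum_univ_three, Pi.sub_apply] at *
    linarith
  have o21 : (a2 - a0) ⬝ᵥ (p1 - p0) = 0 := by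
    simp only [dotProduct, Fin.sum_univ_three, Pi.sub_apply] at *
    linarith
  have o22 : (a2 - a0) ⬝ᵥ (p2 - p0) = 0 := by
    simp only [dotProduct, Fin.sum_univ_three, Pi.sub_apply] at *
    linarith
  generalize a1 - a0 = u at *
  generalize a2 - a0 = w at *
  generalize p1 - p0 = r at *
  generalize p2 - p0 = s at *
  simp only [dotProduct, Fin.sum_univ_three] at o11 o12 o21 o22
  obtain ⟨n0, hn0⟩ : ∃ n0, n0 = u 1 * w 2 - u 2 * w 1 := ⟨_, rfl⟩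
  obtain ⟨n1, hn1⟩ : ∃ n1, n1 = u 2 * w 0 - u 0 * w 2 := ⟨_, rfl⟩
  obtain ⟨n2, hn2⟩ : ∃ n2, n2 = u 0 * w 1 - u 1 * w 0 := ⟨_, rfl⟩
  rw [← hn0, ← hn1, ← hn2] at key1
  have r0 : n1 * r 2 = n2 * r 1 := by
    rw [hn1, hn2]; linear_combination w 0 * o11 - u 0 * o21
  have r1 : n2 * r 0 = n0 * r 2 := by
    rw [hn0, hn2]; linear_combination w 1 * o11 - u 1 * o21
  have r2 : n0 * r 1 = n1 * r 0 := by
    rw [hn0, hn1]; linear_combination w 2 * o11 - u 2 * o21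
  have s0 : n1 * s 2 = n2 * s 1 := by
    rw [hn1, hn2]; linear_combination w 0 * o12 - u 0 * o22
  have s1 : n2 * s 0 = n0 * s 2 := by
    rw [hn0, hn2]; linear_combination w 1 * o12 - u 1 * o22
  have s2 : n0 * s 1 = n1 * s 0 := by
    rw [hn0, hn1]; linear_combination w 2 * o12 - u 2 * o22
  by_cases z0 : n0 = 0
  · by_cases z1 : n1 = 0
    · by_cases z2 : n2 = 0
      · exact key1 z0 z1 z2
      · have f1 : r 1 = 0 := by
          rw [z1, zero_mul] at r0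
          exact (mul_eq_zero.1 r0.symm).resolve_left z2
        have f2 : r 0 = 0 := by
          rw [z0, zero_mul] at r1
          exact (mul_eq_zero.1 r1).resolve_left z2
        have f3 : s 1 = 0 := by
          rw [z1, zero_mul] at s0
          exact (mul_eq_zero.1 s0.symm).resolve_left z2
        have f4 : s 0 = 0 := by
          rw [z0, zero_mul] at s1
          exact (mul_eq_zero.1 s1).resolve_left z2
        apply key2
        · rw [f1, f3]; ring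
        · rw [f2, f4]; ring
        · rw [f1, f2, f3, f4]; ring
    · have f1 : r 2 = n2 * r 1 / n1 := by field_simp; linarith
      have f2 : s 2 = n2 * s 1 / n1 := by field_simp; linarith
      have f3 : r 0 = 0 := by
        rw [z0, zero_mul] at r2
        exact (mul_eq_zero.1 r2.symm).resolve_left z1
      have f4 : s 0 = 0 := by
        rw [z0, zero_mul] at s2
        exact (mul_eq_zero.1 s2.symm).resolve_left z1
      apply key2
      · rw [f1, f2]; ring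
      · rw [f3, f4]; ring
      · rw [f3, f4]; ring
  · have f1 : r 1 = n1 * r 0 / n0 := by field_simp; linarith
    have f2 : s 1 = n1 * s 0 / n0 := by field_simp; linarith
    have f3 : r 2 = n2 * r 0 / n0 := by field_simp; linarith
    have f4 : s 2 = n2 * s 0 / n0 := by field_simp; linarith
    apply key2
    · rw [f1, f2, f3, f4]; ring
    · rw [f3, f4]; ring
    · rw [f1, f2]; ring

end Pool.Agent.Helper53.Spheres
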