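import Mathlib

/-!
# A trace identity for two symmetric matrices with zero diagonals in dual bases
-/

set_option autoImplicit false

namespace Pool.Agent.Helper53.Spheres

open Matrix

theorem trace_zeroDiag (P Q : Matrix (Fin 3) (Fin 3) ℝ) (hP : ∀ i j, P i j = P j i)
    (hQ : ∀ i j, Q i j = Q j i) (hP0 : ∀ i, P i i = 0) (hQ0 : ∀ i, Q i i = 0) :
    (trace (P * Q)) ^ 2 = 2 * trace (P * Q * (P * Q)) := by
  have p10 : P 1 0 = P 0 1 := hP 1 0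
  have p20 : P 2 0 = P 0 2 := hP 2 0
  have p21 : P 2 1 = P 1 2 := hP 2 1
  have q10 : Q 1 0 = Q 0 1 := hQ 1 0
  have q20 : Q 2 0 = Q 0 2 := hQ 2 0
  have q21 : Q 2 1 = Q 1 2 := hQ 2 1
  simp only [trace, diag_apply, mul_apply, Fin.sum_univ_three, hP0, hQ0, p10, p20, p21, q10, q20,
    q21]
  ring

/-- the matrix `ε + (v pᵀ + p vᵀ) / 2` -/
noncomputable def N (v p : Fin 3 → ℝ) (ε : ℝ) : Matrix (Fin 3) (Fin 3) ℝ :=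
  fun i j => ε * (if i = j then 1 else 0) + (v i * p j + p i * v j) / 2

/-- the matrix `1 - y yᵀ` -/
noncomputable def M (y : Fin 3 → ℝ) : Matrix (Fin 3) (Fin 3) ℝ :=
  fun i j => (if i = j then 1 else 0) - y i * y j

/-- the trace of `N M` for `N = ε + (v pᵀ + p vᵀ) / 2` and `M = 1 - y yᵀ` -/
theorem trace_NM (v p y : Fin 3 → ℝ) (ε : ℝ) :
    trace (N v p ε * M y) = ε * (3 - y ⬝ᵥ y) + v ⬝ᵥ p - (y ⬝ᵥ v) * (y ⬝ᵥ p) := by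
  simp only [trace, diag_apply, mul_apply, Fin.sum_univ_three, dotProduct, N, M]
  simp
  ring

theorem NM_apply (v p y : Fin 3 → ℝ) (ε : ℝ) (i j : Fin 3) :
    (N v p ε * M y) i j = N v p ε i j - (ε * y i + (v i * (y ⬝ᵥ p) + p i * (y ⬝ᵥ v)) / 2) * y j := by
  fin_cases i <;> fin_cases j <;>
  · simp only [mul_apply, Fin.sum_univ_three, dotProduct, N, M]
    simp
    ring

/-- the trace of `(N M) ^ 2` -/
theorem trace_NM_sq (v p y : Fin 3 → ℝ) (ε : ℝ) :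
    trace (N v p ε * M y * (N v p ε * M y)) =
      (3 * ε ^ 2 + 2 * ε * (v ⬝ᵥ p) + ((v ⬝ᵥ v) * (p ⬝ᵥ p) + (v ⬝ᵥ p) ^ 2) / 2)
      - 2 * (ε ^ 2 * (y ⬝ᵥ y) + 2 * ε * (y ⬝ᵥ v) * (y ⬝ᵥ p)
        + ((y ⬝ᵥ p) ^ 2 * (v ⬝ᵥ v) + (y ⬝ᵥ v) ^ 2 * (p ⬝ᵥ p)
          + 2 * (y ⬝ᵥ v) * (y ⬝ᵥ p) * (v ⬝ᵥ p)) / 4)
      + (ε * (y ⬝ᵥ y) + (y ⬝ᵥ v) * (y ⬝ᵥ p)) ^ 2 := by
  have key : ∀ a b : ℝ, a = y ⬝ᵥ v → b = y ⬝ᵥ p →
      trace (N v p ε * M y * (N v p ε * M y)) =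
      (3 * ε ^ 2 + 2 * ε * (v ⬝ᵥ p) + ((v ⬝ᵥ v) * (p ⬝ᵥ p) + (v ⬝ᵥ p) ^ 2) / 2)
      - 2 * (ε ^ 2 * (y ⬝ᵥ y) + 2 * ε * a * b
        + (b ^ 2 * (v ⬝ᵥ v) + a ^ 2 * (p ⬝ᵥ p)
          + 2 * a * b * (v ⬝ᵥ p)) / 4)
      + (ε * (y ⬝ᵥ y) + a * b) ^ 2 := by
    intro a b ha hb
    rw [trace]
    simp only [diag_apply]
    simp only [mul_apply (M := N v p ε * M y), NM_apply, ← ha, ← hb]
    simp only [dotProduct, Fin.sum_univ_three] at ha hb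
    simp only [Fin.sum_univ_three, dotProduct, N]
    simp
    rw [ha, hb]
    ring
  exact key _ _ rfl rfl

end Pool.Agent.Helper53.Spheres
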